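import Mathlib
import Pool.Agent.W313.HB.Stm2

/-!
Project HB (helper313): real points give integral directions.
-/

set_option autoImplicit false

namespace Pool.Agent.W928.HB

open Finset Pool.Agent.W313.HB Pool.Agent.W313.BMX

theorem aeval_smul {n N : ℕ} {G : MvPolynomial (Fin (n + 1)) ℤ} (hG : G.IsHomogeneous N) (c : ℝ)
    (y : Fin (n + 1) → ℝ) :
    MvPolynomial.aeval (fun i => c * y i) G = c ^ N * MvPolynomial.aeval y G := by
  rw [MvPolynomial.aeval_def, MvPolynomial.aeval_def, MvPolynomial.eval₂_eq', MvPolynomial.eval₂_eq',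
    Finset.mul_sum]
  refine Finset.sum_congr rfl fun d hd => ?_
  have h1 : ∑ i, d i = N := by
    have h2 := hG.degree_eq_sum_deg_support hd
    rw [h2]
    symm
    refine Finset.sum_subset (Finset.subset_univ _) fun i _ hi => ?_
    exact Finsupp.notMem_support_iff.1 hi
  simp only [mul_pow, Finset.prod_mul_distrib]
  rw [Finset.prod_pow_eq_pow_sum, h1]
  ring

theorem cast_eval {n : ℕ} (G : MvPolynomial (Fin (n + 1)) ℤ) (v : Fin (n + 1) → ℤ) :
    ((MvPolynomial.eval v G : ℤ) : ℝ) = MvPolynomial.aeval (fun i => (v i : ℝ)) G := by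
  have h := MvPolynomial.aeval_algebraMap_apply ℝ v G
  rw [MvPolynomial.aeval_eq_eval] at h
  rw [algebraMap_int_eq, eq_intCast] at h
  exact h.symm

theorem cont_aeval {n : ℕ} (G : MvPolynomial (Fin (n + 1)) ℤ) :
    Continuous fun y : Fin (n + 1) → ℝ => (MvPolynomial.aeval y G : ℝ) := by
  have : (fun y : Fin (n + 1) → ℝ => (MvPolynomial.aeval y G : ℝ)) =
      fun y => MvPolynomial.eval y (MvPolynomial.map (algebraMap ℤ ℝ) G) := by
    funext y
    rw [MvPolynomial.aeval_def, MvPolynomial.eval₂_eq_eval_map]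
  rw [this]
  exact MvPolynomial.continuous_eval _

theorem realt_ : S_REALT := by
  intro n d1 d2 G1 G2 hG1 hG2 a b ha hb hP
  obtain ⟨x, hx1, hx2, u, v, z, hne, hz⟩ := hP
  have ha' : (0 : ℝ) < a := by exact_mod_cast ha
  have hb' : (0 : ℝ) < b := by exact_mod_cast hb
  have hpos : 0 < (MvPolynomial.aeval x G1 : ℝ) ∨ 0 < (MvPolynomial.aeval x G2 : ℝ) := by
    by_contra hcon
    push Not at hcon
    have h1 : (MvPolynomial.aeval x G1 : ℝ) < 0 := lt_of_le_of_ne hcon.1 hx1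
    have h2 : (MvPolynomial.aeval x G2 : ℝ) < 0 := lt_of_le_of_ne hcon.2 hx2
    have h3 : (a : ℝ) * MvPolynomial.aeval x G1 < 0 := mul_neg_of_pos_of_neg ha' h1
    have h4 : (b : ℝ) * MvPolynomial.aeval x G2 < 0 := mul_neg_of_pos_of_neg hb' h2
    have h5 : (a : ℝ) * MvPolynomial.aeval x G1 * u ^ 2 ≤ 0 :=
      mul_nonpos_of_nonpos_of_nonneg h3.le (sq_nonneg u)
    have h6 : (b : ℝ) * MvPolynomial.aeval x G2 * v ^ 2 ≤ 0 :=
      mul_nonpos_of_nonpos_of_nonneg h4.le (sq_nonneg v)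
    have h7 := sq_nonneg z
    have hu : u = 0 := by
      by_contra hu
      have : (a : ℝ) * MvPolynomial.aeval x G1 * u ^ 2 < 0 :=
        mul_neg_of_neg_of_pos h3 (by positivity)
      linarith
    have hv : v = 0 := by
      by_contra hv
      have : (b : ℝ) * MvPolynomial.aeval x G2 * v ^ 2 < 0 :=
        mul_neg_of_neg_of_pos h4 (by positivity)
      linarith
    have hz0 : z = 0 := by
      subst hu hv
      have : z ^ 2 = 0 := by rw [hz]; ring
      exact pow_eq_zero_iff (by norm_num) |>.1 this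
    rcases hne with h | h | h
    · exact h hu
    · exact h hv
    · exact h hz0
  set U : Set (Fin (n + 1) → ℝ) := {y | (MvPolynomial.aeval y G1 : ℝ) ≠ 0 ∧
    (MvPolynomial.aeval y G2 : ℝ) ≠ 0 ∧
    (0 < (MvPolynomial.aeval y G1 : ℝ) ∨ 0 < (MvPolynomial.aeval y G2 : ℝ))} with hU
  have hUo : IsOpen U := by
    have e : U = {y | (MvPolynomial.aeval y G1 : ℝ) ≠ 0} ∩ ({y | (MvPolynomial.aeval y G2 : ℝ) ≠ 0} ∩
      ({y | 0 < (MvPolynomial.aeval y G1 : ℝ)} ∪ {y | 0 < (MvPolynomial.aeval y G2 : ℝ)})) := rfl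
    rw [e]
    refine (isOpen_ne_fun (cont_aeval G1) continuous_const).inter
      ((isOpen_ne_fun (cont_aeval G2) continuous_const).inter
        ((isOpen_lt continuous_const (cont_aeval G1)).union
          (isOpen_lt continuous_const (cont_aeval G2))))
  have hdense : DenseRange (Pi.map (fun (_ : Fin (n + 1)) (q : ℚ) => (q : ℝ))) :=
    DenseRange.piMap fun _ => Rat.denseRange_cast
  obtain ⟨_, hyU, q, rfl⟩ := hdense.inter_open_nonempty U hUo ⟨x, hx1, hx2, hpos⟩
  obtain ⟨m, hm⟩ := IsLocalization.exist_integer_multiples_of_finite (nonZeroDivisors ℤ) q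
  have hm0 : (m : ℤ) ≠ 0 := nonZeroDivisors.coe_ne_zero m
  choose w hw using hm
  have hw' : ∀ i, ((w i : ℤ) : ℝ) = ((m : ℤ) : ℝ) * (q i : ℝ) := by
    intro i
    have h1 := hw i
    rw [algebraMap_int_eq, eq_intCast, zsmul_eq_mul] at h1
    exact_mod_cast h1
  have hm1 : ((m : ℤ) : ℝ) ≠ 0 := by exact_mod_cast hm0
  have key : ∀ (d : ℕ) (G : MvPolynomial (Fin (n + 1)) ℤ), G.IsHomogeneous (2 * d) →
      ((MvPolynomial.eval w G : ℤ) : ℝ) = (((m : ℤ) : ℝ) ^ d) ^ 2 *
        MvPolynomial.aeval (Pi.map (fun (_ : Fin (n + 1)) (q : ℚ) => (q : ℝ)) q) G := by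
    intro d G hG
    rw [cast_eval, ← pow_mul, mul_comm d 2, ← aeval_smul hG]
    congr 2
    funext i
    rw [hw' i]
    rfl
  have hsq : ∀ d : ℕ, 0 < (((m : ℤ) : ℝ) ^ d) ^ 2 := fun d => by positivity
  obtain ⟨hy1, hy2, hy3⟩ := hyU
  refine ⟨w, ?_, ?_, ?_⟩
  · intro h
    have h1 := key d1 G1 hG1
    rw [h, Int.cast_zero] at h1
    exact (mul_ne_zero (hsq d1).ne' hy1) h1.symm
  · intro h
    have h1 := key d2 G2 hG2
    rw [h, Int.cast_zero] at h1
    exact (mul_ne_zero (hsq d2).ne' hy2) h1.symm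
  · rcases hy3 with h | h
    · left
      have h1 : (0 : ℝ) < ((MvPolynomial.eval w G1 : ℤ) : ℝ) := by
        rw [key d1 G1 hG1]
        exact mul_pos (hsq d1) h
      exact_mod_cast h1
    · right
      have h1 : (0 : ℝ) < ((MvPolynomial.eval w G2 : ℤ) : ℝ) := by
        rw [key d2 G2 hG2]
        exact mul_pos (hsq d2) h
      exact_mod_cast h1

end Pool.Agent.W928.HB
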